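import Pool.Agent.H81.RW.Nv
import Pool.Agent.H64.XL.Defs

/-!
# [H40 IN] MP_8f2e1c_an, THEOREM DIM, chapter X: the input `Nvs` (H64/XL/Defs) from `nv` (H81/RW/Nv)

`nvs_of`: for one `z`, from the conclusion of `nv` for this `z`: `κ = min (1 / (n + 1)) (ρ₀ / C)`, `ball c ρ₀ ⊆ thickening δ J ∩ U`, `M = C ^ 2`.
(`‖deriv φ 0‖ ≤ C s` by Schwarz, `s ≤ C ‖deriv φ 0‖`.) `nvs_all`: for all `z`, with uniform `θ`, `θ₁`, `M`; also `f^[m n] z` at distance `≤ M ‖deriv (χ n) 0‖` from `c`, the frame discs are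
disjoint from `P`, the windows `χ n` lie over windows `ψ n` of `f c`.
-/

set_option autoImplicit false

open Filter Topology Metric Set MeasureTheory

namespace Pool.Agent.H40.IN

open Pool.Agent.H56.UD Pool.Agent.H64.XL

theorem wt_mono {f : ℂ → ℂ} {U J P : Set ℂ} {δ : ℝ} {c : ℂ} {θ M ε ε' : ℝ} {χ : ℂ → ℂ} (h : Wt f U J P δ c θ M ε χ)
    (he : ε ≤ ε') : Wt f U J P δ c θ M ε' χ :=
  ⟨h.d, h.i, h.c0, h.hU, fun v hv => ball_subset_ball he (h.e v hv), h.sy, h.of, h.bd⟩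

/-- the conclusion of `nv` for one `z` and one `κ` -/
def Nk (f : ℂ → ℂ) (U J P : Set ℂ) (c : ℂ) (δ : ℝ) (η : ℂ → ℂ → ℂ) (r₀ θ θ₁ C : ℝ) (z : ℂ) (κ : ℝ) : Prop :=
  ∃ (φ ψ : ℂ → ℂ) (s : ℝ), 0 < s ∧ s < κ ∧
      (DifferentiableOn ℂ ψ (ball 0 1) ∧ InjOn ψ (ball 0 1) ∧ ψ 0 = f c ∧
        (∀ x ∈ ball (0 : ℂ) 1, ψ x ∈ ball (f c) (C * s ^ 2) ∧ (ψ x ∈ P → ‖x‖ ≤ θ ^ 2)) ∧ s ^ 2 ≤ C * ‖deriv ψ 0‖) ∧
      (DifferentiableOn ℂ φ (ball 0 1) ∧ InjOn φ (ball 0 1) ∧ φ 0 = c ∧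
        (∀ x ∈ ball (0 : ℂ) 1, φ x ∈ η c '' ball 0 r₀ ∧ f (φ x) = ψ (x ^ 2) ∧ φ x ∈ ball c (C * s) ∧
          (φ x ∈ P → ‖x‖ ≤ θ)) ∧ s ≤ C * ‖deriv φ 0‖) ∧
        ∃ (m : ℕ) (y : ℂ) (g : ℂ → ℂ), ‖y‖ = θ₁ ∧ ‖f^[m] z - c‖ ≤ C * s ∧ Disjoint (ball (φ y) (s / C)) P ∧
          DifferentiableOn ℂ g (ball (φ y) (s / C)) ∧
          (∀ u ∈ ball (φ y) (s / C), g u ∈ dm f U J δ m ∧ f^[m] (g u) = u) ∧
          ‖g (φ y) - z‖ ≤ C * (s * ‖deriv g (φ y)‖) ∧ s * ‖deriv g (φ y)‖ < κ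

theorem nvs_of {f : ℂ → ℂ} {U J P : Set ℂ} {c : ℂ} {δ : ℝ} {η : ℂ → ℂ → ℂ} {r₀ : ℝ} (h : PS f U J P {c} δ η r₀)
    {θ θ₁ C : ℝ} (h0 : 0 < θ) (h1 : θ < θ₁) (h2 : θ₁ < 1) (hC : 1 ≤ C) {z : ℂ}
    (hn : ∀ κ : ℝ, 0 < κ → Nk f U J P c δ η r₀ θ θ₁ C z κ) :
    ∃ (ε : ℕ → ℝ) (m : ℕ → ℕ) (y : ℕ → ℂ) (χ g ψ : ℕ → ℂ → ℂ), Nvs f U J P δ c z θ θ₁ (C ^ 2) ε m y χ g ∧
      ∀ n, (‖y n‖ = θ₁ ∧ ‖f^[m n] z - c‖ ≤ C ^ 2 * ‖deriv (χ n) 0‖ ∧ ‖deriv (χ n) 0‖ ≤ ε n ∧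
        Disjoint (ball (χ n (y n)) (‖deriv (χ n) 0‖ / C ^ 2)) P ∧ ∀ v ∈ ball (0 : ℂ) 1, χ n v ∈ η c '' ball 0 r₀) ∧
        DifferentiableOn ℂ (ψ n) (ball 0 1) ∧ InjOn (ψ n) (ball 0 1) ∧ ψ n 0 = f c ∧
        ∀ v ∈ ball (0 : ℂ) 1, f (χ n v) = ψ n (v ^ 2) ∧ ψ n v ∈ ball (f c) (ε n ^ 2) ∧ (ψ n v ∈ P → ‖v‖ ≤ θ ^ 2) := by
  have hC0 : 0 < C := one_pos.trans_le hC
  have hcJ : c ∈ J := h.CJ rfl
  obtain ⟨ρ, hρ, hρU⟩ := Metric.isOpen_iff.1 h.Uo c (h.JU hcJ)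
  have hκ : ∀ n : ℕ, 0 < min (1 / ((n : ℝ) + 1)) (min ρ δ / C) := fun n =>
    lt_min (by positivity) (div_pos (lt_min hρ h.hδ) hC0)
  choose φ ψ s hs hsκ hψ hφ m y g hy hm hP hgd hgv hgz hgt using fun n : ℕ => hn _ (hκ n)
  have hs1 : ∀ n : ℕ, s n < 1 / ((n : ℝ) + 1) := fun n => (hsκ n).trans_le (min_le_left _ _)
  have hs2 : ∀ n : ℕ, C * s n ≤ ρ ∧ C * s n ≤ δ := by
    intro n
    have k1 : s n < min ρ δ / C := (hsκ n).trans_le (min_le_right _ _)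
    rw [lt_div_iff₀ hC0, mul_comm] at k1
    exact ⟨k1.le.trans (min_le_left _ _), k1.le.trans (min_le_right _ _)⟩
  have hin : ∀ n, ∀ v ∈ ball (0 : ℂ) 1, φ n v ∈ ball c (C * s n) := fun n v hv => ((hφ n).2.2.2.1 v hv).2.2.1
  have hdle : ∀ n, ‖deriv (φ n) 0‖ ≤ C * s n := by
    intro n
    have k1 : MapsTo (φ n) (ball 0 1) (ball (φ n 0) (C * s n)) := by
      rw [(hφ n).2.2.1]
      exact hin n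
    have k2 := Complex.norm_deriv_le_div_of_mapsTo_ball (hφ n).1 (k1.mono_right ball_subset_closedBall) one_pos
    rwa [div_one] at k2
  have hdge : ∀ n, s n ≤ C * ‖deriv (φ n) 0‖ := fun n => (hφ n).2.2.2.2
  have hrad : ∀ n, ‖deriv (φ n) 0‖ / C ^ 2 ≤ s n / C := by
    intro n
    rw [div_le_div_iff₀ (by positivity) hC0]
    nlinarith [hdle n, hs n]
  have htend : Tendsto (fun n : ℕ => C * s n) atTop (𝓝 0) := by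
    have k1 : Tendsto (fun n : ℕ => C * (1 / ((n : ℝ) + 1))) atTop (𝓝 0) := by
      simpa using (tendsto_one_div_add_atTop_nhds_zero_nat (𝕜 := ℝ)).const_mul C
    exact squeeze_zero (fun n => (mul_pos hC0 (hs n)).le) (fun n => mul_le_mul_of_nonneg_left (hs1 n).le hC0.le) k1
  refine ⟨fun n => C * s n, m, y, φ, g, ψ, ⟨h0, h1, h2, by nlinarith, htend, fun n => ?_, fun n => ?_, fun n => ?_,
    fun n w hw => ?_, fun n => ?_, ?_⟩, fun n => ⟨⟨hy n, ?_, hdle n, ?_, fun v hv => ((hφ n).2.2.2.1 v hv).1⟩,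
      (hψ n).1, (hψ n).2.1, (hψ n).2.2.1, fun v hv => ⟨((hφ n).2.2.2.1 v hv).2.1, ?_, ((hψ n).2.2.2.1 v hv).2⟩⟩⟩
  · refine ⟨(hφ n).1, (hφ n).2.1, (hφ n).2.2.1, fun v hv => ?_, hin n, fun v hv => ?_, fun v hv hv1 hvP => ?_, fun v hv => ?_⟩
    · have k1 := mem_ball_iff_norm.1 (hin n v hv)
      refine ⟨mem_thickening_iff.2 ⟨c, hcJ, ?_⟩, hρU ?_⟩
      · rw [dist_eq_norm]
        exact k1.trans_le (hs2 n).2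
      · exact mem_ball_iff_norm.2 (k1.trans_le (hs2 n).1)
    · have hv' : -v ∈ ball (0 : ℂ) 1 := by
        rw [mem_ball_zero_iff, norm_neg]
        exact mem_ball_zero_iff.1 hv
      rw [((hφ n).2.2.2.1 v hv).2.1, ((hφ n).2.2.2.1 (-v) hv').2.1, neg_sq]
    · exact absurd (((hφ n).2.2.2.1 v (mem_ball_zero_iff.2 hv1)).2.2.2 hvP) (not_le.2 hv)
    · have k1 := (mem_ball_iff_norm.1 (hin n v hv)).le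
      have k2 : C * s n ≤ C ^ 2 * ‖deriv (φ n) 0‖ := by
        rw [sq, mul_assoc]
        exact mul_le_mul_of_nonneg_left (hdge n) hC0.le
      exact k1.trans k2
  · rw [hy n]
    exact ⟨h1, le_rfl⟩
  · exact (hgd n).mono (ball_subset_ball (hrad n))
  · exact hgv n w (ball_subset_ball (hrad n) hw)
  · refine (hgz n).trans ?_
    have k2 : C * s n ≤ C ^ 2 * ‖deriv (φ n) 0‖ := by
      rw [sq, mul_assoc]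
      exact mul_le_mul_of_nonneg_left (hdge n) hC0.le
    calc C * (s n * ‖deriv (g n) (φ n (y n))‖) = C * s n * ‖deriv (g n) (φ n (y n))‖ := by ring
      _ ≤ C ^ 2 * ‖deriv (φ n) 0‖ * ‖deriv (g n) (φ n (y n))‖ := mul_le_mul_of_nonneg_right k2 (norm_nonneg _)
  · have k1 : Tendsto (fun n : ℕ => C * (1 / ((n : ℝ) + 1))) atTop (𝓝 0) := by
      simpa using (tendsto_one_div_add_atTop_nhds_zero_nat (𝕜 := ℝ)).const_mul C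
    refine squeeze_zero (fun n => by positivity) (fun n => ?_) k1
    calc ‖deriv (φ n) 0‖ * ‖deriv (g n) (φ n (y n))‖ ≤ C * s n * ‖deriv (g n) (φ n (y n))‖ :=
          mul_le_mul_of_nonneg_right (hdle n) (norm_nonneg _)
      _ = C * (s n * ‖deriv (g n) (φ n (y n))‖) := by ring
      _ ≤ C * (1 / ((n : ℝ) + 1)) := mul_le_mul_of_nonneg_left ((hgt n).le.trans (min_le_left _ _)) hC0.le
  · refine (hm n).trans ?_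
    rw [sq, mul_assoc]
    exact mul_le_mul_of_nonneg_left (hdge n) hC0.le
  · exact (hP n).mono_left (ball_subset_ball (hrad n))
  · refine ball_subset_ball ?_ ((hψ n).2.2.2.1 v hv).1
    have := hs n
    show C * s n ^ 2 ≤ (C * s n) ^ 2
    have k1 : 0 ≤ s n ^ 2 := sq_nonneg _
    nlinarith

/-- THEOREM: the input of chapter X -/
theorem nvs_all {f : ℂ → ℂ} {U J P : Set ℂ} {c : ℂ} {δ : ℝ} {η : ℂ → ℂ → ℂ} {r₀ : ℝ} (h : PS f U J P {c} δ η r₀)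
    (hc : c ∈ P) (horb : P ⊆ closure {y | ∃ n : ℕ, f^[n] (f c) = y})
    (hring : ∃ M r₁ : ℝ, 0 < r₁ ∧ ∀ x ∈ P, ∀ r : ℝ, 0 < r → r < r₁ → ∃ y ∈ P, r ≤ ‖y - x‖ ∧ ‖y - x‖ ≤ M * r)
    (hclu : ∃ ε : ℝ, 0 < ε ∧ ∀ r₁ : ℝ, 0 < r₁ → ∃ r : ℝ, 0 < r ∧ r < r₁ ∧ ∃ A ⊆ P, A.Nonempty ∧
      (∀ x ∈ A, ∀ y ∈ A, ‖x - y‖ ≤ r) ∧ ∀ x ∈ A, ∀ y ∈ P, y ∉ A → ε * r ≤ ‖x - y‖) :
    ∃ θ θ₁ M : ℝ, ∀ z ∈ J, (∀ n : ℕ, f^[n] z ≠ c) → (∀ ε : ℝ, 0 < ε → ∀ n₀ : ℕ, ∃ n ≥ n₀, ‖f^[n] z - c‖ < ε) →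
    ∃ (ε : ℕ → ℝ) (m : ℕ → ℕ) (y : ℕ → ℂ) (χ g ψ : ℕ → ℂ → ℂ), Nvs f U J P δ c z θ θ₁ M ε m y χ g ∧
      ∀ n, (‖y n‖ = θ₁ ∧ ‖f^[m n] z - c‖ ≤ M * ‖deriv (χ n) 0‖ ∧ ‖deriv (χ n) 0‖ ≤ ε n ∧
        Disjoint (ball (χ n (y n)) (‖deriv (χ n) 0‖ / M)) P ∧ ∀ v ∈ ball (0 : ℂ) 1, χ n v ∈ η c '' ball 0 r₀) ∧
        DifferentiableOn ℂ (ψ n) (ball 0 1) ∧ InjOn (ψ n) (ball 0 1) ∧ ψ n 0 = f c ∧
        ∀ v ∈ ball (0 : ℂ) 1, f (χ n v) = ψ n (v ^ 2) ∧ ψ n v ∈ ball (f c) (ε n ^ 2) ∧ (ψ n v ∈ P → ‖v‖ ≤ θ ^ 2) := by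
  obtain ⟨θ, θ₁, C, h0, h1, h2, hC, hn⟩ := Pool.Agent.H81.RW.nv h hc horb hring hclu
  refine ⟨θ, θ₁, C ^ 2, fun z hz hpre hω => nvs_of h h0 h1 h2 hC fun κ hκ => ?_⟩
  obtain ⟨φ, ψ, s, a1, a2, a3, a4, a5⟩ := hn κ hκ
  exact ⟨φ, ψ, s, a1, a2, a3, a4, a5 z hz hpre hω⟩

end Pool.Agent.H40.IN
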